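import Mathlib

namespace Pool.Agent.Results.MP_93723f_co.MoserPacking

open Finset

/-- finite axis-parallel packing without rotation of the rectangles `w i × h i`, `i ∈ s`,
into the box with lower left corner `(x, y)`, width `u` and height `v` -/
def BoxPack {ι : Type*} (s : Finset ι) (w h : ι → ℝ) (x y u v : ℝ) : Prop :=
  ∃ p q : ι → ℝ,
    (∀ i ∈ s, x ≤ p i ∧ p i + w i ≤ x + u ∧ y ≤ q i ∧ q i + h i ≤ y + v) ∧
    ∀ i ∈ s, ∀ j ∈ s, i ≠ j →
      (p i + w i ≤ p j ∨ p j + w j ≤ p i ∨ q i + h i ≤ q j ∨ q j + h j ≤ q i)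

theorem BoxPack.swap {ι : Type*} {s : Finset ι} {w h : ι → ℝ} {x y u v : ℝ}
    (H : BoxPack s w h x y u v) : BoxPack s h w y x v u := by
  obtain ⟨p, q, h1, h2⟩ := H
  refine ⟨q, p, fun i hi => ?_, fun i hi j hj hij => ?_⟩
  · obtain ⟨a, b, c, d⟩ := h1 i hi
    exact ⟨c, d, a, b⟩
  · rcases h2 i hi j hj hij with h | h | h | h
    · exact Or.inr (Or.inr (Or.inl h))
    · exact Or.inr (Or.inr (Or.inr h))
    · exact Or.inl h
    · exact Or.inr (Or.inl h)

theorem BoxPack.translate {ι : Type*} {s : Finset ι} {w h : ι → ℝ} {x y u v : ℝ}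
    (H : BoxPack s w h 0 0 u v) : BoxPack s w h x y u v := by
  obtain ⟨p, q, h1, h2⟩ := H
  refine ⟨fun i => x + p i, fun i => y + q i, fun i hi => ?_, fun i hi j hj hij => ?_⟩
  · obtain ⟨a, b, c, d⟩ := h1 i hi
    refine ⟨by linarith, by linarith, by linarith, by linarith⟩
  · rcases h2 i hi j hj hij with h | h | h | h
    · exact Or.inl (by linarith)
    · exact Or.inr (Or.inl (by linarith))
    · exact Or.inr (Or.inr (Or.inl (by linarith)))
    · exact Or.inr (Or.inr (Or.inr (by linarith)))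

theorem BoxPack.mono {ι : Type*} {s : Finset ι} {w h : ι → ℝ} {x y u v x' y' u' v' : ℝ}
    (H : BoxPack s w h x y u v) (hx : x' ≤ x) (hy : y' ≤ y) (hu : x + u ≤ x' + u')
    (hv : y + v ≤ y' + v') : BoxPack s w h x' y' u' v' := by
  obtain ⟨p, q, h1, h2⟩ := H
  refine ⟨p, q, fun i hi => ?_, h2⟩
  obtain ⟨a, b, c, d⟩ := h1 i hi
  exact ⟨by linarith, by linarith, by linarith, by linarith⟩

/-- two packings in boxes side by side -/
theorem BoxPack.hunion {ι : Type*} [DecidableEq ι] {s t : Finset ι} {w h : ι → ℝ}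
    {x y u u' v : ℝ}
    (H1 : BoxPack s w h x y u v) (H2 : BoxPack t w h (x + u) y u' v) (hd : Disjoint s t)
    (hu : 0 ≤ u) (hu' : 0 ≤ u') :
    BoxPack (s ∪ t) w h x y (u + u') v := by
  classical
  obtain ⟨p, q, h1, h2⟩ := H1
  obtain ⟨p', q', h1', h2'⟩ := H2
  have hst : ∀ i ∈ t, i ∉ s := fun i hi his => (Finset.disjoint_left.mp hd) his hi
  refine ⟨fun i => if i ∈ s then p i else p' i, fun i => if i ∈ s then q i else q' i,
    fun i hi => ?_, fun i hi j hj hij => ?_⟩
  · by_cases his : i ∈ s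
    · obtain ⟨a, b, c, d⟩ := h1 i his
      simp only [his, if_true]
      exact ⟨a, by linarith, c, d⟩
    · have hit : i ∈ t := by
        rcases Finset.mem_union.mp hi with h | h
        · exact absurd h his
        · exact h
      obtain ⟨a, b, c, d⟩ := h1' i hit
      simp only [his, if_false]
      exact ⟨by linarith, by linarith, c, d⟩
  · by_cases his : i ∈ s
    · by_cases hjs : j ∈ s
      · simp only [his, hjs, if_true]
        exact h2 i his j hjs hij
      · have hjt : j ∈ t := by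
          rcases Finset.mem_union.mp hj with h | h
          · exact absurd h hjs
          · exact h
        obtain ⟨a, b, c, d⟩ := h1 i his
        obtain ⟨a', b', c', d'⟩ := h1' j hjt
        simp only [his, hjs, if_true, if_false]
        exact Or.inl (by linarith)
    · have hit : i ∈ t := by
        rcases Finset.mem_union.mp hi with h | h
        · exact absurd h his
        · exact h
      by_cases hjs : j ∈ s
      · obtain ⟨a, b, c, d⟩ := h1 j hjs
        obtain ⟨a', b', c', d'⟩ := h1' i hit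
        simp only [his, hjs, if_true, if_false]
        exact Or.inr (Or.inl (by linarith))
      · have hjt : j ∈ t := by
          rcases Finset.mem_union.mp hj with h | h
          · exact absurd h hjs
          · exact h
        simp only [his, hjs, if_false]
        exact h2' i hit j hjt hij

/-- stacking lemma: put the rectangles of `M` on top of each other, widest at the bottom -/
theorem stack {ι : Type*} [DecidableEq ι] (w h : ι → ℝ) (M : Finset ι)
    (hw : ∀ i ∈ M, 0 ≤ w i) (hh : ∀ i ∈ M, 0 ≤ h i) :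
    ∃ q : ι → ℝ, (∀ i ∈ M, 0 ≤ q i ∧ q i + h i ≤ ∑ t ∈ M, h t) ∧
      (∀ i ∈ M, ∀ j ∈ M, i ≠ j → q i + h i ≤ q j ∨ q j + h j ≤ q i) ∧
      ∀ i ∈ M, w i * (q i + h i) ≤ ∑ t ∈ M, w t * h t := by
  classical
  revert hw hh
  refine Finset.induction_on_min_value w M ?_ ?_
  · intro _ _
    exact ⟨fun _ => 0, by simp, by simp, by simp⟩
  · intro a s has hmin ih hw hh
    obtain ⟨q, h1, h2, h3⟩ := ih (fun i hi => hw i (Finset.mem_insert_of_mem hi))
      (fun i hi => hh i (Finset.mem_insert_of_mem hi))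
    have hha := hh a (Finset.mem_insert_self a s)
    have hwa := hw a (Finset.mem_insert_self a s)
    have hs0 : 0 ≤ ∑ t ∈ s, h t :=
      Finset.sum_nonneg (fun i hi => hh i (Finset.mem_insert_of_mem hi))
    have hne : ∀ i ∈ s, i ≠ a := fun i hi hia => has (hia ▸ hi)
    refine ⟨fun i => if i = a then ∑ t ∈ s, h t else q i, ?_, ?_, ?_⟩
    · intro i hi
      rw [Finset.sum_insert has]
      rcases Finset.mem_insert.mp hi with rfl | his
      · simp only [if_true]
        exact ⟨hs0, by linarith⟩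
      · have := h1 i his
        simp only [hne i his, if_false]
        exact ⟨this.1, by linarith⟩
    · intro i hi j hj hij
      rcases Finset.mem_insert.mp hi with rfl | his
      · rcases Finset.mem_insert.mp hj with rfl | hjs
        · exact absurd rfl hij
        · have := h1 j hjs
          simp only [hne j hjs, if_true, if_false]
          exact Or.inr this.2
      · rcases Finset.mem_insert.mp hj with rfl | hjs
        · have := h1 i his
          simp only [hne i his, if_true, if_false]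
          exact Or.inl this.2
        · simp only [hne i his, hne j hjs, if_false]
          exact h2 i his j hjs hij
    · intro i hi
      rw [Finset.sum_insert has]
      rcases Finset.mem_insert.mp hi with rfl | his
      · simp only [if_true]
        have : w i * ∑ t ∈ s, h t ≤ ∑ t ∈ s, w t * h t := by
          rw [Finset.mul_sum]
          exact Finset.sum_le_sum (fun t ht =>
            mul_le_mul_of_nonneg_right (hmin t ht) (hh t (Finset.mem_insert_of_mem ht)))
        nlinarith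
      · have := h3 i his
        simp only [hne i his, if_false]
        nlinarith [mul_nonneg hwa hha]

/-- the packing hypothesis of Steinberg's theorem for the finset `t` -/
def SteinbergFor {ι : Type*} (t : Finset ι) (w h : ι → ℝ) : Prop :=
  ∀ u v a b : ℝ, (∀ i ∈ t, 0 < w i ∧ w i ≤ a) → (∀ i ∈ t, 0 < h i ∧ h i ≤ b) →
    a ≤ u → b ≤ v →
    2 * ∑ i ∈ t, w i * h i ≤ u * v - max (2 * a - u) 0 * max (2 * b - v) 0 →
    BoxPack t w h 0 0 u v

theorem step1 {ι : Type*} [DecidableEq ι] (s : Finset ι) (w h : ι → ℝ) (u v : ℝ)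
    (hw : ∀ i ∈ s, 0 < w i ∧ w i ≤ u) (hh : ∀ i ∈ s, 0 < h i ∧ h i ≤ v)
    (hS : 2 * ∑ i ∈ s, w i * h i ≤ u * v)
    (hex : ∃ i ∈ s, u / 2 ≤ w i)
    (hno : ∀ i ∈ s, ∀ j ∈ s, u / 2 ≤ w i → w j < u / 2 →
       2 * ∑ i ∈ s, w i * h i ≤ u * v - (2 * w i - u) * (2 * h j - v))
    (IH : ∀ t ⊂ s, SteinbergFor t w h) :
    BoxPack s w h 0 0 u v := by
  classical
  obtain ⟨i0, hi0s, hi0⟩ := hex
  have hupos : 0 < u := lt_of_lt_of_le (hw i0 hi0s).1 (hw i0 hi0s).2
  have hvpos : 0 < v := lt_of_lt_of_le (hh i0 hi0s).1 (hh i0 hi0s).2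
  set M := s.filter (fun i => u / 2 ≤ w i) with hM
  set R := s.filter (fun i => ¬ u / 2 ≤ w i) with hR
  set hm := ∑ t ∈ M, h t with hhm
  set v' := v - hm with hv'
  set K := R.filter (fun i => v' < h i) with hK
  set T := R.filter (fun i => ¬ v' < h i) with hT
  set W := ∑ t ∈ K, w t with hW
  have hMs : ∀ i ∈ M, i ∈ s := fun i hi => (Finset.mem_filter.mp hi).1
  have hRs : ∀ i ∈ R, i ∈ s := fun i hi => (Finset.mem_filter.mp hi).1
  have hKR : ∀ i ∈ K, i ∈ R := fun i hi => (Finset.mem_filter.mp hi).1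
  have hTR : ∀ i ∈ T, i ∈ R := fun i hi => (Finset.mem_filter.mp hi).1
  have hsum1 : ∑ i ∈ s, w i * h i = ∑ i ∈ M, w i * h i + ∑ i ∈ R, w i * h i :=
    (Finset.sum_filter_add_sum_filter_not s _ _).symm
  have hsum2 : ∑ i ∈ R, w i * h i = ∑ i ∈ K, w i * h i + ∑ i ∈ T, w i * h i :=
    (Finset.sum_filter_add_sum_filter_not R _ _).symm
  have hposs : ∀ i ∈ s, 0 < w i * h i := fun i hi => mul_pos (hw i hi).1 (hh i hi).1
  have hMarea : u / 2 * hm ≤ ∑ i ∈ M, w i * h i := by
    rw [hhm, Finset.mul_sum]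
    exact Finset.sum_le_sum (fun i hi => mul_le_mul_of_nonneg_right
      (Finset.mem_filter.mp hi).2 (hh i (hMs i hi)).1.le)
  have hKarea : v' * W ≤ ∑ i ∈ K, w i * h i := by
    rw [hW, Finset.mul_sum]
    refine Finset.sum_le_sum (fun i hi => ?_)
    have h1 := (Finset.mem_filter.mp hi).2
    have h2 := (hw i (hRs i (hKR i hi))).1
    nlinarith
  have hT0 : 0 ≤ ∑ i ∈ T, w i * h i :=
    Finset.sum_nonneg (fun i hi => (hposs i (hRs i (hTR i hi))).le)
  have hK0 : 0 ≤ ∑ i ∈ K, w i * h i :=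
    Finset.sum_nonneg (fun i hi => (hposs i (hRs i (hKR i hi))).le)
  have hW0 : 0 ≤ W := Finset.sum_nonneg (fun i hi => (hw i (hRs i (hKR i hi))).1.le)
  have hm0 : 0 ≤ hm := Finset.sum_nonneg (fun i hi => (hh i (hMs i hi)).1.le)
  have hv'0 : 0 ≤ v' := by
    have : u * hm ≤ u * v := by nlinarith
    have := le_of_mul_le_mul_left this hupos
    linarith
  have hWu : W ≤ u / 2 := by
    rcases hv'0.lt_or_eq with hpos | hzero
    · have h1 : 0 ≤ v' * (u - 2 * W) := by
        rw [hv'] at hKarea ⊢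
        nlinarith
      have h2 : 0 ≤ u - 2 * W := nonneg_of_mul_nonneg_right h1 hpos
      linarith
    · have hKe : K = ∅ := by
        by_contra hne
        have hne' : K.Nonempty := Finset.nonempty_iff_ne_empty.mpr hne
        have : 0 < ∑ i ∈ K, w i * h i :=
          Finset.sum_pos (fun i hi => hposs i (hRs i (hKR i hi))) hne'
        have : hm = v := by linarith
        nlinarith
      rw [hW, hKe]
      simp only [Finset.sum_empty]
      linarith
  -- the recursive packing
  have hTss : T ⊂ s := by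
    refine Finset.ssubset_iff_subset_ne.mpr ⟨fun i hi => hRs i (hTR i hi), fun hTs => ?_⟩
    have : i0 ∈ T := hTs ▸ hi0s
    exact (Finset.mem_filter.mp (hTR i0 this)).2 hi0
  have hpackT : BoxPack T w h 0 0 (u - W) v' := by
    refine IH T hTss (u - W) v' (u / 2) v' ?_ ?_ (by linarith) le_rfl ?_
    · intro i hi
      have h1 := (Finset.mem_filter.mp (hTR i hi)).2
      exact ⟨(hw i (hRs i (hTR i hi))).1, (not_le.mp h1).le⟩
    · intro i hi
      have h1 := (Finset.mem_filter.mp hi).2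
      exact ⟨(hh i (hRs i (hTR i hi))).1, not_lt.mp h1⟩
    · rw [max_eq_left (by linarith : (0:ℝ) ≤ 2 * (u / 2) - (u - W)),
        max_eq_left (by linarith : (0:ℝ) ≤ 2 * v' - v')]
      rw [hv'] at hKarea ⊢
      nlinarith
  obtain ⟨pT, qT, hT1, hT2⟩ := hpackT
  obtain ⟨qM, hM1, hM2, hM3⟩ := stack w h M (fun i hi => (hw i (hMs i hi)).1.le)
    (fun i hi => (hh i (hMs i hi)).1.le)
  obtain ⟨pK, hK1, hK2, hK3⟩ := stack h w K (fun i hi => (hh i (hRs i (hKR i hi))).1.le)
    (fun i hi => (hw i (hRs i (hKR i hi))).1.le)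
  have hKh : ∑ t ∈ K, h t * w t = ∑ t ∈ K, w t * h t :=
    Finset.sum_congr rfl (fun i _ => mul_comm _ _)
  have hdMK : ∀ i ∈ K, i ∉ M := by
    intro i hi hiM
    exact (Finset.mem_filter.mp (hKR i hi)).2 (Finset.mem_filter.mp hiM).2
  have hdMT : ∀ i ∈ T, i ∉ M := by
    intro i hi hiM
    exact (Finset.mem_filter.mp (hTR i hi)).2 (Finset.mem_filter.mp hiM).2
  have hdKT : ∀ i ∈ T, i ∉ K := by
    intro i hi hiK
    exact (Finset.mem_filter.mp hi).2 (Finset.mem_filter.mp hiK).2
  have hcases : ∀ i ∈ s, i ∈ M ∨ i ∈ K ∨ i ∈ T := by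
    intro i hi
    by_cases h1 : u / 2 ≤ w i
    · exact Or.inl (Finset.mem_filter.mpr ⟨hi, h1⟩)
    · have hiR : i ∈ R := Finset.mem_filter.mpr ⟨hi, h1⟩
      by_cases h2 : v' < h i
      · exact Or.inr (Or.inl (Finset.mem_filter.mpr ⟨hiR, h2⟩))
      · exact Or.inr (Or.inr (Finset.mem_filter.mpr ⟨hiR, h2⟩))
  -- final positions
  let P : ι → ℝ := fun i => if i ∈ M then 0 else if i ∈ K then u - (pK i + w i) else pT i
  let Q : ι → ℝ := fun i => if i ∈ M then qM i else if i ∈ K then v - h i else hm + qT i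
  have PM : ∀ i ∈ M, P i = 0 ∧ Q i = qM i := fun i hi => by simp [P, Q, hi]
  have PK : ∀ i ∈ K, P i = u - (pK i + w i) ∧ Q i = v - h i := fun i hi => by
    simp [P, Q, hi, hdMK i hi]
  have PT : ∀ i ∈ T, P i = pT i ∧ Q i = hm + qT i := fun i hi => by
    simp [P, Q, hdMT i hi, hdKT i hi]
  have sepMK : ∀ i ∈ M, ∀ j ∈ K, P i + w i ≤ P j ∨ Q i + h i ≤ Q j := by
    intro i hi j hj
    rw [(PM i hi).1, (PM i hi).2, (PK j hj).1, (PK j hj).2]
    by_contra hcon
    push Not at hcon
    obtain ⟨c1, c2⟩ := hcon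
    have a1 := hM3 i hi
    have a2 := hK3 j hj
    have hwi := hw i (hMs i hi)
    have hhj := hh j (hRs j (hKR j hj))
    have a3 := hno i (hMs i hi) j (hRs j (hKR j hj)) (Finset.mem_filter.mp hi).2
      (not_le.mp (Finset.mem_filter.mp (hKR j hj)).2)
    have b1 : w i * (v - h j) < w i * (qM i + h i) := by
      exact mul_lt_mul_of_pos_left (by linarith) hwi.1
    have b2 : h j * (u - w i) < h j * (pK j + w j) := by
      exact mul_lt_mul_of_pos_left (by linarith) hhj.1
    nlinarith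
  have sepMT : ∀ i ∈ M, ∀ j ∈ T, Q i + h i ≤ Q j := by
    intro i hi j hj
    rw [(PM i hi).2, (PT j hj).2]
    have := (hM1 i hi).2
    have := (hT1 j hj).2.2.1
    linarith
  have sepTK : ∀ i ∈ T, ∀ j ∈ K, P i + w i ≤ P j := by
    intro i hi j hj
    rw [(PT i hi).1, (PK j hj).1]
    have := (hK1 j hj).2
    have := (hT1 i hi).2.1
    linarith
  refine ⟨P, Q, ?_, ?_⟩
  · intro i hi
    rcases hcases i hi with hiM | hiK | hiT
    · rw [(PM i hiM).1, (PM i hiM).2]
      have := hM1 i hiM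
      have := hw i hi
      refine ⟨le_rfl, by linarith, by linarith, by linarith⟩
    · rw [(PK i hiK).1, (PK i hiK).2]
      have := hK1 i hiK
      have := hh i hi
      refine ⟨by linarith, by linarith, by linarith, by linarith⟩
    · rw [(PT i hiT).1, (PT i hiT).2]
      have := hT1 i hiT
      refine ⟨by linarith, by linarith, by linarith, by linarith⟩
  · intro i hi j hj hij
    rcases hcases i hi with hiM | hiK | hiT
    · rcases hcases j hj with hjM | hjK | hjT
      · rw [(PM i hiM).2, (PM j hjM).2]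
        rcases hM2 i hiM j hjM hij with h | h
        · exact Or.inr (Or.inr (Or.inl h))
        · exact Or.inr (Or.inr (Or.inr h))
      · rcases sepMK i hiM j hjK with h | h
        · exact Or.inl h
        · exact Or.inr (Or.inr (Or.inl h))
      · exact Or.inr (Or.inr (Or.inl (sepMT i hiM j hjT)))
    · rcases hcases j hj with hjM | hjK | hjT
      · rcases sepMK j hjM i hiK with h | h
        · exact Or.inr (Or.inl h)
        · exact Or.inr (Or.inr (Or.inr h))
      · rw [(PK i hiK).1, (PK j hjK).1]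
        rcases hK2 i hiK j hjK hij with h | h
        · exact Or.inr (Or.inl (by linarith))
        · exact Or.inl (by linarith)
      · exact Or.inr (Or.inl (sepTK j hjT i hiK))
    · rcases hcases j hj with hjM | hjK | hjT
      · exact Or.inr (Or.inr (Or.inr (sepMT j hjM i hiT)))
      · exact Or.inl (sepTK i hiT j hjK)
      · rw [(PT i hiT).1, (PT j hjT).1, (PT i hiT).2, (PT j hjT).2]
        rcases hT2 i hiT j hjT hij with h | h | h | h
        · exact Or.inl h
        · exact Or.inr (Or.inl h)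
        · exact Or.inr (Or.inr (Or.inl (by linarith)))
        · exact Or.inr (Or.inr (Or.inr (by linarith)))

theorem SteinbergFor.swap {ι : Type*} {t : Finset ι} {w h : ι → ℝ}
    (H : SteinbergFor t w h) : SteinbergFor t h w := by
  intro u v a b hw hh hau hbv hS
  refine BoxPack.swap (H v u b a hh hw hbv hau ?_)
  have : ∑ i ∈ t, w i * h i = ∑ i ∈ t, h i * w i :=
    Finset.sum_congr rfl (fun i _ => mul_comm _ _)
  rw [this]
  linarith [mul_comm u v, mul_comm (max (2 * a - u) 0) (max (2 * b - v) 0)]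

theorem split {ι : Type*} [DecidableEq ι] (s T : Finset ι) (w h : ι → ℝ) (u v m a' : ℝ)
    (hTs : T ⊆ s) (hTne : T.Nonempty) (hm0 : 0 ≤ m) (hmu : m ≤ u) (hv : 0 ≤ v)
    (H1 : BoxPack T w h 0 0 m v)
    (hwr : ∀ i ∈ s \ T, 0 < w i ∧ w i ≤ a') (ha' : a' ≤ u - m)
    (hhr : ∀ i ∈ s \ T, 0 < h i ∧ h i ≤ v / 2)
    (hS : 2 * ∑ i ∈ s \ T, w i * h i ≤ (u - m) * v)
    (IH : ∀ t ⊂ s, SteinbergFor t w h) : BoxPack s w h 0 0 u v := by
  have hss : s \ T ⊂ s := by
    obtain ⟨x, hx⟩ := hTne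
    refine Finset.ssubset_iff_subset_ne.mpr ⟨Finset.sdiff_subset, fun he => ?_⟩
    have : x ∈ s \ T := by rw [he]; exact hTs hx
    exact (Finset.mem_sdiff.mp this).2 hx
  have H2 : BoxPack (s \ T) w h 0 0 (u - m) v := by
    refine IH _ hss (u - m) v a' (v / 2) hwr hhr ha' (by linarith) ?_
    rw [max_eq_right (by linarith : 2 * (v / 2) - v ≤ 0), mul_zero, sub_zero]
    exact hS
  have H3 := BoxPack.hunion (s := T) (t := s \ T) (w := w) (h := h) (x := 0) (y := 0)
    (u := m) (u' := u - m) (v := v) H1 (BoxPack.translate H2) Finset.disjoint_sdiff hm0 (by linarith)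
  rw [Finset.union_sdiff_of_subset hTs] at H3
  have : m + (u - m) = u := by ring
  rwa [this] at H3

theorem exists_mid {ι : Type*} [DecidableEq ι] (s A : Finset ι) (f : ι → ℝ) (c d e : ℝ)
    (hA : A ⊆ s) (hAne : A ≠ s)
    (hc : 0 < c) (hcs : c ≤ ∑ i ∈ s, f i) (hAd : ∑ i ∈ A, f i ≤ d)
    (hsmall : ∀ i ∈ s, i ∉ A → f i < e) (hce : c + e ≤ d) (hes : c + e ≤ ∑ i ∈ s, f i) :
    ∃ T, A ⊆ T ∧ T ⊂ s ∧ T.Nonempty ∧ c ≤ ∑ i ∈ T, f i ∧ ∑ i ∈ T, f i ≤ d := by
  classical
  let C := s.powerset.filter (fun T => A ⊆ T ∧ c ≤ ∑ i ∈ T, f i)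
  have hCne : C.Nonempty :=
    ⟨s, Finset.mem_filter.mpr ⟨Finset.mem_powerset.mpr (Finset.Subset.refl s), hA, hcs⟩⟩
  obtain ⟨T, hTC, hTmin⟩ := Finset.exists_min_image C (fun T => T.card) hCne
  obtain ⟨hTs, hAT, hcT⟩ := Finset.mem_filter.mp hTC
  have hTs := Finset.mem_powerset.mp hTs
  have hTne : T.Nonempty := by
    by_contra hne
    rw [Finset.not_nonempty_iff_eq_empty] at hne
    rw [hne, Finset.sum_empty] at hcT
    linarith
  by_cases hTA : T = A
  · refine ⟨T, hAT, ?_, hTne, hcT, hTA ▸ hAd⟩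
    exact Finset.ssubset_iff_subset_ne.mpr ⟨hTs, fun h => hAne (hTA ▸ h)⟩
  · obtain ⟨x, hxT, hxA⟩ : ∃ x ∈ T, x ∉ A := by
      by_contra hcon
      push Not at hcon
      exact hTA (Finset.Subset.antisymm hcon hAT)
    have hlt : ∑ i ∈ T.erase x, f i < c := by
      by_contra hcon
      push Not at hcon
      have hmem : T.erase x ∈ C := by
        refine Finset.mem_filter.mpr ⟨Finset.mem_powerset.mpr
          ((Finset.erase_subset x T).trans hTs), ?_, hcon⟩
        intro y hy
        refine Finset.mem_erase.mpr ⟨fun hyx => hxA (hyx ▸ hy), hAT hy⟩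
      have := hTmin _ hmem
      have h2 := Finset.card_erase_lt_of_mem hxT
      omega
    have hsum : ∑ i ∈ T.erase x, f i + f x = ∑ i ∈ T, f i := Finset.sum_erase_add T f hxT
    have hfx := hsmall x (hTs hxT) hxA
    refine ⟨T, hAT, ?_, hTne, hcT, by linarith⟩
    refine Finset.ssubset_iff_subset_ne.mpr ⟨hTs, fun h => ?_⟩
    rw [h] at hsum hlt
    linarith

theorem step3 {ι : Type*} [DecidableEq ι] (s : Finset ι) (w h : ι → ℝ) (u v : ℝ)
    (hu : 0 < u) (hv : 0 < v)
    (hw : ∀ i ∈ s, 0 < w i ∧ w i < u / 2) (hh : ∀ i ∈ s, 0 < h i ∧ h i < v / 2)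
    (hS : 2 * ∑ i ∈ s, w i * h i ≤ u * v)
    (hbig : u * v / 4 < ∑ i ∈ s, w i * h i)
    (hA : ∑ i ∈ s.filter (fun i => u / 4 < w i), w i * h i ≤ 3 / 8 * (u * v))
    (hAne : s.filter (fun i => u / 4 < w i) ≠ s)
    (IH : ∀ t ⊂ s, SteinbergFor t w h) : BoxPack s w h 0 0 u v := by
  classical
  have huv : 0 < u * v := mul_pos hu hv
  obtain ⟨T, hAT, hTs, hTne, hT1, hT2⟩ := exists_mid s (s.filter (fun i => u / 4 < w i))
    (fun i => w i * h i) (∑ i ∈ s, w i * h i - u * v / 4) (3 / 8 * (u * v)) (u * v / 8)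
    (Finset.filter_subset _ _) hAne
    (by linarith) (by linarith) hA
    (by
      intro i hi hiA
      have h1 : w i ≤ u / 4 := by
        by_contra hcon
        exact hiA (Finset.mem_filter.mpr ⟨hi, not_le.mp hcon⟩)
      have h2 := (hh i hi).2
      have h3 := (hh i hi).1
      have h4 := (hw i hi).1
      nlinarith) (by linarith) (by linarith)
  have hsd : ∑ i ∈ s \ T, w i * h i = ∑ i ∈ s, w i * h i - ∑ i ∈ T, w i * h i := by
    have := Finset.sum_sdiff (f := fun i => w i * h i) hTs.1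
    linarith
  set m := max (u / 2) (2 * (∑ i ∈ T, w i * h i) / v) with hm
  have hm1 : u / 2 ≤ m := le_max_left _ _
  have hm2 : 2 * (∑ i ∈ T, w i * h i) / v ≤ m := le_max_right _ _
  have hm2' : 2 * (∑ i ∈ T, w i * h i) ≤ m * v := (div_le_iff₀ hv).mp hm2
  have hm3 : m ≤ 3 * u / 4 := by
    refine max_le (by linarith) ?_
    rw [div_le_iff₀ hv]
    nlinarith
  refine split s T w h u v m (u / 4) hTs.1 hTne (by linarith) (by linarith) hv.le ?_ ?_ (by linarith) ?_ ?_ IH
  · refine IH T hTs m v (u / 2) (v / 2)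
      (fun i hi => ⟨(hw i (hTs.1 hi)).1, (hw i (hTs.1 hi)).2.le⟩)
      (fun i hi => ⟨(hh i (hTs.1 hi)).1, (hh i (hTs.1 hi)).2.le⟩) hm1 (by linarith) ?_
    rw [max_eq_right (by linarith : 2 * (v / 2) - v ≤ 0), mul_zero, sub_zero]
    exact hm2'
  · intro i hi
    obtain ⟨his, hiT⟩ := Finset.mem_sdiff.mp hi
    refine ⟨(hw i his).1, ?_⟩
    by_contra hcon
    exact hiT (hAT (Finset.mem_filter.mpr ⟨his, not_le.mp hcon⟩))
  · intro i hi
    obtain ⟨his, hiT⟩ := Finset.mem_sdiff.mp hi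
    exact ⟨(hh i his).1, (hh i his).2.le⟩
  · rw [hsd]
    rcases max_cases (u / 2) (2 * (∑ i ∈ T, w i * h i) / v) with ⟨h1, h2⟩ | ⟨h1, h2⟩
    · have : m = u / 2 := h1
      rw [this]
      nlinarith
    · have h3 : m = 2 * (∑ i ∈ T, w i * h i) / v := h1
      have h4 : m * v = 2 * ∑ i ∈ T, w i * h i := by
        rw [h3]; field_simp
      nlinarith

theorem pair_ok (x1 y1 x2 y2 u v : ℝ) (hu : 0 < u) (hv : 0 < v)
    (hx1 : u / 4 < x1) (hx2 : u / 4 < x2) (hy1 : v / 4 < y1) (hy2 : v / 4 < y2) :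
    max x1 x2 * v ≤ 2 * (x1 * y1 + x2 * y2) ∨ max y1 y2 * u ≤ 2 * (x1 * y1 + x2 * y2) := by
  have key : ∀ x1 y1 x2 y2 : ℝ, u / 4 < x1 → u / 4 < x2 → v / 4 < y1 → v / 4 < y2 →
      x2 ≤ x1 → (x1 * v ≤ 2 * (x1 * y1 + x2 * y2) ∨ max y1 y2 * u ≤ 2 * (x1 * y1 + x2 * y2)) := by
    intro x1 y1 x2 y2 hx1 hx2 hy1 hy2 hx
    by_contra hcon
    push Not at hcon
    obtain ⟨c1, c2⟩ := hcon
    rcases le_total y2 y1 with hy | hy
    · rw [max_eq_left hy] at c2
      have e1 : u * v / 16 ≤ x2 * y2 := by nlinarith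
      have d1 : 2 * x1 * y1 + u * v / 8 < x1 * v := by linarith
      have d2 : 2 * x1 * y1 + u * v / 8 < y1 * u := by linarith
      rcases le_total (x1 * v) (y1 * u) with hc | hc
      · have f1 : (2 * x1 * y1 + u * v / 8) * u < x1 * v * u := mul_lt_mul_of_pos_right d1 hu
        have f2 : 2 * x1 * (x1 * v) ≤ 2 * x1 * (y1 * u) :=
          mul_le_mul_of_nonneg_left hc (by linarith)
        have f3 : 0 ≤ 2 * v * (x1 - u / 4) ^ 2 := by positivity
        nlinarith
      · have f1 : (2 * x1 * y1 + u * v / 8) * v < y1 * u * v := mul_lt_mul_of_pos_right d2 hv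
        have f2 : 2 * y1 * (y1 * u) ≤ 2 * y1 * (x1 * v) :=
          mul_le_mul_of_nonneg_left hc (by linarith)
        have f3 : 0 ≤ 2 * u * (y1 - v / 4) ^ 2 := by positivity
        nlinarith
    · rw [max_eq_right hy] at c2
      have e1 : x1 * (v / 4) ≤ x1 * y1 := mul_le_mul_of_nonneg_left hy1.le (by linarith)
      have e2 : u / 4 * y2 ≤ x2 * y2 := mul_le_mul_of_nonneg_right hx2.le (by linarith)
      nlinarith
  rcases le_total x2 x1 with hx | hx
  · rw [max_eq_left hx]
    exact key x1 y1 x2 y2 hx1 hx2 hy1 hy2 hx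
  · rw [max_eq_right hx, max_comm y1 y2, add_comm (x1 * y1)]
    exact key x2 y2 x1 y1 hx2 hx1 hy2 hy1 hx

theorem step2 {ι : Type*} [DecidableEq ι] (s : Finset ι) (w h : ι → ℝ) (u v : ℝ)
    (hv : 0 < v)
    (hw : ∀ i ∈ s, 0 < w i ∧ w i < u / 2) (hh : ∀ i ∈ s, 0 < h i ∧ h i < v / 2)
    (hS : 2 * ∑ i ∈ s, w i * h i ≤ u * v)
    (i k : ι) (hi : i ∈ s) (hk : k ∈ s) (hik : i ≠ k)
    (hp : max (w i) (w k) * v ≤ 2 * (w i * h i + w k * h k))
    (IH : ∀ t ⊂ s, SteinbergFor t w h) : BoxPack s w h 0 0 u v := by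
  classical
  have hTs : ({i, k} : Finset ι) ⊆ s := by
    intro x hx
    rcases Finset.mem_insert.mp hx with rfl | hx
    · exact hi
    · rw [Finset.mem_singleton.mp hx]; exact hk
  have hsd : ∑ j ∈ s \ {i, k}, w j * h j = ∑ j ∈ s, w j * h j - (w i * h i + w k * h k) := by
    have := Finset.sum_sdiff (f := fun i => w i * h i) hTs
    rw [Finset.sum_pair hik] at this
    linarith
  have hwi := hw i hi
  have hwk := hw k hk
  have hhi := hh i hi
  have hhk := hh k hk
  have hm1 : max (w i) (w k) < u / 2 := max_lt hwi.2 hwk.2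
  have hm0 : 0 < max (w i) (w k) := lt_max_of_lt_left hwi.1
  have hl : w i ≤ max (w i) (w k) := le_max_left _ _
  have hr : w k ≤ max (w i) (w k) := le_max_right _ _
  refine split s {i, k} w h u v (max (w i) (w k)) (u / 2) hTs ⟨i, by simp⟩ hm0.le
    (by linarith) hv.le ?_ ?_ (by linarith) ?_ ?_ IH
  · refine ⟨fun _ => 0, fun j => if j = i then 0 else h i, ?_, ?_⟩
    · intro j hj
      rcases Finset.mem_insert.mp hj with rfl | hj
      · simp only [if_true]
        exact ⟨le_rfl, by linarith, le_rfl, by linarith⟩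
      · rw [Finset.mem_singleton.mp hj]
        simp only [hik.symm, if_false]
        exact ⟨le_rfl, by linarith, by linarith, by linarith⟩
    · intro j hj l hl hjl
      have hj' : j = i ∨ j = k := by simpa using hj
      have hl' : l = i ∨ l = k := by simpa using hl
      rcases hj' with hj' | hj' <;> rcases hl' with hl' | hl'
      · exact absurd (hj'.trans hl'.symm) hjl
      · rw [hj', hl']
        simp only [if_true, hik.symm, if_false]
        exact Or.inr (Or.inr (Or.inl (by linarith)))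
      · rw [hj', hl']
        simp only [if_true, hik.symm, if_false]
        exact Or.inr (Or.inr (Or.inr (by linarith)))
      · exact absurd (hj'.trans hl'.symm) hjl
  · intro j hj
    have hjs := (Finset.mem_sdiff.mp hj).1
    exact ⟨(hw j hjs).1, (hw j hjs).2.le⟩
  · intro j hj
    have hjs := (Finset.mem_sdiff.mp hj).1
    exact ⟨(hh j hjs).1, (hh j hjs).2.le⟩
  · rw [hsd]
    nlinarith

theorem step0 {ι : Type*} [DecidableEq ι] (s : Finset ι) (w h : ι → ℝ) (u v : ℝ)
    (hv : 0 < v)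
    (hw : ∀ i ∈ s, 0 < w i ∧ w i < u / 2) (hh : ∀ i ∈ s, 0 < h i ∧ h i < v / 2)
    (i : ι) (hi : i ∈ s) (hp : ∑ j ∈ s, w j * h j - u * v / 4 ≤ w i * h i)
    (IH : ∀ t ⊂ s, SteinbergFor t w h) : BoxPack s w h 0 0 u v := by
  classical
  have hTs : ({i} : Finset ι) ⊆ s := Finset.singleton_subset_iff.mpr hi
  have hsd : ∑ j ∈ s \ {i}, w j * h j = ∑ j ∈ s, w j * h j - w i * h i := by
    have := Finset.sum_sdiff (f := fun i => w i * h i) hTs
    rw [Finset.sum_singleton] at this
    linarith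
  have hwi := hw i hi
  have hhi := hh i hi
  refine split s {i} w h u v (u / 2) (u / 2) hTs ⟨i, by simp⟩ (by linarith)
    (by linarith) hv.le ?_ ?_ (by linarith) ?_ ?_ IH
  · refine ⟨fun _ => 0, fun _ => 0, ?_, ?_⟩
    · intro j hj
      rw [Finset.mem_singleton.mp hj]
      exact ⟨le_rfl, by linarith, le_rfl, by linarith⟩
    · intro j hj l hl hjl
      exact absurd ((Finset.mem_singleton.mp hj).trans (Finset.mem_singleton.mp hl).symm) hjl
  · intro j hj
    have hjs := (Finset.mem_sdiff.mp hj).1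
    exact ⟨(hw j hjs).1, (hw j hjs).2.le⟩
  · intro j hj
    have hjs := (Finset.mem_sdiff.mp hj).1
    exact ⟨(hh j hjs).1, (hh j hjs).2.le⟩
  · rw [hsd]
    nlinarith

theorem steinberg {ι : Type*} [DecidableEq ι] (w h : ι → ℝ) (s : Finset ι) :
    SteinbergFor s w h := by
  classical
  induction s using Finset.strongInduction with
  | H s IH =>
  intro u v a b hw hh hau hbv hS
  have IH' : ∀ t ⊂ s, SteinbergFor t h w := fun t ht => (IH t ht).swap
  have hcomm : ∑ i ∈ s, h i * w i = ∑ i ∈ s, w i * h i :=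
    Finset.sum_congr rfl (fun i _ => mul_comm _ _)
  rcases s.eq_empty_or_nonempty with rfl | hne
  · exact ⟨fun _ => 0, fun _ => 0, by simp, by simp⟩
  obtain ⟨i0, hi0⟩ := hne
  have hu : 0 < u := lt_of_lt_of_le (hw i0 hi0).1 ((hw i0 hi0).2.trans hau)
  have hv : 0 < v := lt_of_lt_of_le (hh i0 hi0).1 ((hh i0 hi0).2.trans hbv)
  have hm1 : 0 ≤ max (2 * a - u) 0 := le_max_right _ _
  have hm2 : 0 ≤ max (2 * b - v) 0 := le_max_right _ _
  have hm3 : 2 * a - u ≤ max (2 * a - u) 0 := le_max_left _ _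
  have hm4 : 2 * b - v ≤ max (2 * b - v) 0 := le_max_left _ _
  have hS2 : 2 * ∑ i ∈ s, w i * h i ≤ u * v := by nlinarith [mul_nonneg hm1 hm2]
  -- general no-overlap estimate
  have hgen : ∀ x y : ℝ, x ≤ a → y ≤ b → (u ≤ 2 * x ∨ v ≤ 2 * y) →
      2 * ∑ i ∈ s, w i * h i ≤ u * v - (2 * x - u) * (2 * y - v) := by
    intro x y hx hy hor
    rcases le_total u (2 * x) with h1 | h1
    · rcases le_total v (2 * y) with h2 | h2
      · have : (2 * x - u) * (2 * y - v) ≤ max (2 * a - u) 0 * max (2 * b - v) 0 :=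
          mul_le_mul (by linarith) (by linarith) (by linarith) hm1
        linarith
      · nlinarith
    · rcases le_total v (2 * y) with h2 | h2
      · nlinarith
      · rcases hor with h3 | h3
        · have : 2 * x = u := le_antisymm h1 h3
          rw [this]; linarith
        · have : 2 * y = v := le_antisymm h2 h3
          rw [this]; linarith
  by_cases hA : ∃ i ∈ s, u / 2 ≤ w i
  · refine step1 s w h u v (fun i hi => ⟨(hw i hi).1, (hw i hi).2.trans hau⟩)
      (fun i hi => ⟨(hh i hi).1, (hh i hi).2.trans hbv⟩) hS2 hA ?_ IH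
    intro i hi j hj h1 _
    exact hgen _ _ (hw i hi).2 (hh j hj).2 (Or.inl (by linarith))
  by_cases hB : ∃ i ∈ s, v / 2 ≤ h i
  · refine BoxPack.swap (step1 s h w v u (fun i hi => ⟨(hh i hi).1, (hh i hi).2.trans hbv⟩)
      (fun i hi => ⟨(hw i hi).1, (hw i hi).2.trans hau⟩) (by rw [hcomm]; linarith) hB ?_ IH')
    intro i hi j hj h1 _
    have := hgen _ _ (hw j hj).2 (hh i hi).2 (Or.inr (by linarith))
    rw [hcomm]
    linarith
  push Not at hA hB
  have hw' : ∀ i ∈ s, 0 < w i ∧ w i < u / 2 := fun i hi => ⟨(hw i hi).1, hA i hi⟩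
  have hh' : ∀ i ∈ s, 0 < h i ∧ h i < v / 2 := fun i hi => ⟨(hh i hi).1, hB i hi⟩
  have huv : 0 < u * v := mul_pos hu hv
  by_cases hC : ∃ i ∈ s, ∑ j ∈ s, w j * h j - u * v / 4 ≤ w i * h i
  · obtain ⟨i, hi, hi2⟩ := hC
    exact step0 s w h u v hv hw' hh' i hi hi2 IH
  push Not at hC
  have hbig : u * v / 4 < ∑ i ∈ s, w i * h i := by
    have := hC i0 hi0
    have := mul_pos (hw i0 hi0).1 (hh i0 hi0).1
    linarith
  by_cases hD : ∑ i ∈ s.filter (fun i => u / 4 < w i), w i * h i ≤ 3 / 8 * (u * v) ∧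
      s.filter (fun i => u / 4 < w i) ≠ s
  · exact step3 s w h u v hu hv hw' hh' hS2 hbig hD.1 hD.2 IH
  by_cases hE : ∑ i ∈ s.filter (fun i => v / 4 < h i), w i * h i ≤ 3 / 8 * (u * v) ∧
      s.filter (fun i => v / 4 < h i) ≠ s
  · refine BoxPack.swap (step3 s h w v u hv hu hh' hw' (by rw [hcomm]; linarith)
      (by rw [hcomm]; linarith) ?_ hE.2 IH')
    have : ∑ i ∈ s.filter (fun i => v / 4 < h i), h i * w i =
        ∑ i ∈ s.filter (fun i => v / 4 < h i), w i * h i :=
      Finset.sum_congr rfl (fun i _ => mul_comm _ _)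
    rw [this]
    linarith [hE.1]
  -- now many rectangles are large in both directions
  set Wd := s.filter (fun i => u / 4 < w i) with hWd
  set Hd := s.filter (fun i => v / 4 < h i) with hHd
  set D := Wd ∩ Hd with hDd
  have hWs : Wd ⊆ s := Finset.filter_subset _ _
  have hHs : Hd ⊆ s := Finset.filter_subset _ _
  have hpos : ∀ i ∈ s, 0 < w i * h i := fun i hi => mul_pos (hw i hi).1 (hh i hi).1
  have hW3 : 3 / 8 * (u * v) < ∑ i ∈ Wd, w i * h i ∨ Wd = s := by
    by_contra hcon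
    push Not at hcon
    exact hD hcon
  have hH3 : 3 / 8 * (u * v) < ∑ i ∈ Hd, w i * h i ∨ Hd = s := by
    by_contra hcon
    push Not at hcon
    exact hE hcon
  have hui : ∑ i ∈ Wd ∪ Hd, w i * h i + ∑ i ∈ D, w i * h i =
      ∑ i ∈ Wd, w i * h i + ∑ i ∈ Hd, w i * h i := Finset.sum_union_inter
  have hun : ∑ i ∈ Wd ∪ Hd, w i * h i ≤ ∑ i ∈ s, w i * h i :=
    Finset.sum_le_sum_of_subset_of_nonneg (Finset.union_subset hWs hHs)
      (fun i hi _ => (hpos i hi).le)
  have hDbig : ∑ j ∈ s, w j * h j - u * v / 4 ≤ ∑ i ∈ D, w i * h i := by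
    rcases hW3 with h1 | h1
    · rcases hH3 with h2 | h2
      · linarith
      · rw [h2] at hui hun
        linarith
    · rcases hH3 with h2 | h2
      · rw [h1] at hui hun
        linarith
      · rw [h1, h2] at hui
        rw [h1, h2] at hun
        linarith
  have hDs : D ⊆ s := Finset.inter_subset_left.trans hWs
  have hDne : D.Nonempty := by
    by_contra hne
    rw [Finset.not_nonempty_iff_eq_empty] at hne
    rw [hne, Finset.sum_empty] at hDbig
    linarith
  obtain ⟨i, hiD⟩ := hDne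
  have hDne2 : (D.erase i).Nonempty := by
    by_contra hne
    rw [Finset.not_nonempty_iff_eq_empty] at hne
    have h1 := Finset.sum_erase_add D (fun i => w i * h i) hiD
    rw [hne, Finset.sum_empty] at h1
    have h2 := hC i (hDs hiD)
    linarith
  obtain ⟨k, hkD⟩ := hDne2
  obtain ⟨hki, hkD⟩ := Finset.mem_erase.mp hkD
  have hi1 := (Finset.mem_filter.mp (Finset.mem_inter.mp hiD).1).2
  have hi2 := (Finset.mem_filter.mp (Finset.mem_inter.mp hiD).2).2
  have hk1 := (Finset.mem_filter.mp (Finset.mem_inter.mp hkD).1).2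
  have hk2 := (Finset.mem_filter.mp (Finset.mem_inter.mp hkD).2).2
  rcases pair_ok (w i) (h i) (w k) (h k) u v hu hv hi1 hk1 hi2 hk2 with h1 | h1
  · exact step2 s w h u v hv hw' hh' hS2 i k (hDs hiD) (hDs hkD) hki.symm h1 IH
  · refine BoxPack.swap (step2 s h w v u hu hh' hw' (by rw [hcomm]; linarith) i k
      (hDs hiD) (hDs hkD) hki.symm ?_ IH')
    linarith [mul_comm (w i) (h i), mul_comm (w k) (h k)]

/-- finite families, long sides horizontal, into a square -/
theorem finite_pack {ι : Type*} [DecidableEq ι] (s : Finset ι) (w h : ι → ℝ) (q : ℝ)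
    (hw : ∀ i ∈ s, w i ≤ q) (hh : ∀ i ∈ s, 0 < h i ∧ h i ≤ w i)
    (hS : 2 * ∑ i ∈ s, w i * h i ≤ q * q) : BoxPack s w h 0 0 q q := by
  classical
  rcases s.eq_empty_or_nonempty with rfl | ⟨i0, hi0⟩
  · exact ⟨fun _ => 0, fun _ => 0, by simp, by simp⟩
  by_cases hA : ∃ i ∈ s, q / 2 ≤ w i
  · refine step1 s w h q q (fun i hi => ⟨lt_of_lt_of_le (hh i hi).1 (hh i hi).2, hw i hi⟩)
      (fun i hi => ⟨(hh i hi).1, (hh i hi).2.trans (hw i hi)⟩) hS hA ?_
      (fun t _ => steinberg w h t)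
    intro i hi j hj h1 h2
    have := (hh j hj).2
    nlinarith
  · push Not at hA
    have h0 := hh i0 hi0
    have h1 := hw i0 hi0
    refine steinberg w h s q q (q / 2) (q / 2)
      (fun i hi => ⟨lt_of_lt_of_le (hh i hi).1 (hh i hi).2, (hA i hi).le⟩)
      (fun i hi => ⟨(hh i hi).1, (hh i hi).2.trans (hA i hi).le⟩) (by linarith)
      (by linarith) ?_
    rw [max_eq_right (by linarith : 2 * (q / 2) - q ≤ 0), mul_zero, sub_zero]
    exact hS

/-- from all finite subfamilies to the whole family -/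
theorem compact_pack {ι : Type*} (w h : ι → ℝ) (q : ℝ) (hq : 0 ≤ q)
    (hw : ∀ i, 0 ≤ w i) (hh : ∀ i, 0 ≤ h i)
    (hfin : ∀ s : Finset ι, BoxPack s w h 0 0 q q) :
    ∃ p r : ι → ℝ, (∀ i, 0 ≤ p i ∧ p i + w i ≤ q ∧ 0 ≤ r i ∧ r i + h i ≤ q) ∧
      ∀ i j, i ≠ j →
        (p i + w i ≤ p j ∨ p j + w j ≤ p i ∨ r i + h i ≤ r j ∨ r j + h j ≤ r i) := by
  classical
  let C : Finset ι → Set (ι → ℝ × ℝ) := fun s =>
    Set.pi Set.univ (fun _ => Set.Icc (0:ℝ) q ×ˢ Set.Icc (0:ℝ) q) ∩
    ({f | ∀ i ∈ s, (f i).1 + w i ≤ q ∧ (f i).2 + h i ≤ q} ∩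
     {f | ∀ i ∈ s, ∀ j ∈ s, i ≠ j → ((f i).1 + w i ≤ (f j).1 ∨ (f j).1 + w j ≤ (f i).1 ∨
        (f i).2 + h i ≤ (f j).2 ∨ (f j).2 + h j ≤ (f i).2)})
  have hK : IsCompact (Set.pi Set.univ
      (fun _ : ι => Set.Icc (0:ℝ) q ×ˢ Set.Icc (0:ℝ) q)) :=
    isCompact_univ_pi (fun _ => isCompact_Icc.prod isCompact_Icc)
  have hc1 : ∀ i, Continuous (fun f : ι → ℝ × ℝ => (f i).1) := fun i =>
    continuous_fst.comp (continuous_apply i)
  have hc2 : ∀ i, Continuous (fun f : ι → ℝ × ℝ => (f i).2) := fun i =>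
    continuous_snd.comp (continuous_apply i)
  have hclosed : ∀ s : Finset ι, IsClosed ({f : ι → ℝ × ℝ | ∀ i ∈ s, (f i).1 + w i ≤ q ∧
      (f i).2 + h i ≤ q} ∩
     {f | ∀ i ∈ s, ∀ j ∈ s, i ≠ j → ((f i).1 + w i ≤ (f j).1 ∨ (f j).1 + w j ≤ (f i).1 ∨
        (f i).2 + h i ≤ (f j).2 ∨ (f j).2 + h j ≤ (f i).2)} ) := by
    intro s
    refine IsClosed.inter ?_ ?_
    · simp only [Set.ofPred_forall]
      refine isClosed_iInter (fun i => isClosed_iInter (fun _ => ?_))
      exact (isClosed_le ((hc1 i).add continuous_const) continuous_const).inter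
        (isClosed_le ((hc2 i).add continuous_const) continuous_const)
    · simp only [Set.ofPred_forall]
      refine isClosed_iInter (fun i => isClosed_iInter (fun _ => isClosed_iInter (fun j =>
        isClosed_iInter (fun _ => isClosed_iInter (fun _ => ?_)))))
      exact (isClosed_le ((hc1 i).add continuous_const) (hc1 j)).union
        ((isClosed_le ((hc1 j).add continuous_const) (hc1 i)).union
        ((isClosed_le ((hc2 i).add continuous_const) (hc2 j)).union
        (isClosed_le ((hc2 j).add continuous_const) (hc2 i))))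
  have hne : (⋂ s, C s).Nonempty := by
    refine IsCompact.nonempty_iInter_of_directed_nonempty_isCompact_isClosed C ?_ ?_ ?_ ?_
    · intro s t
      refine ⟨s ∪ t, ?_, ?_⟩
      · rintro f ⟨h1, h2, h3⟩
        exact ⟨h1, fun i hi => h2 i (Finset.mem_union_left _ hi),
          fun i hi j hj => h3 i (Finset.mem_union_left _ hi) j (Finset.mem_union_left _ hj)⟩
      · rintro f ⟨h1, h2, h3⟩
        exact ⟨h1, fun i hi => h2 i (Finset.mem_union_right _ hi),
          fun i hi j hj => h3 i (Finset.mem_union_right _ hi) j (Finset.mem_union_right _ hj)⟩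
    · intro s
      obtain ⟨p, r, h1, h2⟩ := hfin s
      refine ⟨fun i => if i ∈ s then (p i, r i) else (0, 0), ?_, ?_, ?_⟩
      · intro i _
        by_cases hi : i ∈ s
        · have := h1 i hi
          have := hw i
          have := hh i
          simp only [hi, if_true, Set.mem_prod, Set.mem_Icc]
          refine ⟨⟨by linarith, by linarith⟩, ⟨by linarith, by linarith⟩⟩
        · simp only [hi, if_false, Set.mem_prod, Set.mem_Icc]
          exact ⟨⟨le_rfl, hq⟩, ⟨le_rfl, hq⟩⟩
      · intro i hi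
        have := h1 i hi
        simp only [hi, if_true]
        exact ⟨by linarith, by linarith⟩
      · intro i hi j hj hij
        simp only [hi, hj, if_true]
        exact h2 i hi j hj hij
    · intro s
      exact hK.inter_right (hclosed s)
    · intro s
      exact hK.isClosed.inter (hclosed s)
  obtain ⟨f, hf⟩ := hne
  have hf' : ∀ s, f ∈ C s := fun s => Set.mem_iInter.mp hf s
  refine ⟨fun i => (f i).1, fun i => (f i).2, fun i => ?_, fun i j hij => ?_⟩
  · have h1 := (hf' {i}).1 i (Set.mem_univ i)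
    have h2 := (hf' {i}).2.1 i (Finset.mem_singleton_self i)
    simp only [Set.mem_prod, Set.mem_Icc] at h1
    exact ⟨h1.1.1, h2.1, h1.2.1, h2.2⟩
  · exact (hf' {i, j}).2.2 i (by simp) j (by simp) hij

/-- the closed rectangle with horizontal side `a`, vertical side `b` and a corner at `0`,
in the plane `ℂ` -/
def rect (a b : ℝ) : Set ℂ := {z | 0 ≤ z.re ∧ z.re ≤ a ∧ 0 ≤ z.im ∧ z.im ≤ b}

/-- the image of the rectangle `rect a b` under the rigid motion `z ↦ u z + c`
(rotation by the unit complex number `u`, then translation by `c`) -/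
def placed (a b : ℝ) (u c : ℂ) : Set ℂ := (fun z => u * z + c) '' rect a b

/-- the family of rectangles with sides `a i`, `b i` packs into the region `K`:
there are rigid motions carrying all of them into `K` with pairwise disjoint interiors -/
def Packs {ι : Type*} (a b : ι → ℝ) (K : Set ℂ) : Prop :=
  ∃ u c : ι → ℂ, (∀ i, ‖u i‖ = 1) ∧ (∀ i, placed (a i) (b i) (u i) (c i) ⊆ K) ∧
    ∀ i j, i ≠ j → Disjoint (interior (placed (a i) (b i) (u i) (c i)))
      (interior (placed (a j) (b j) (u j) (c j)))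

theorem interior_box (S : Set ℂ) (x y w h : ℝ)
    (hS : S ⊆ {z | x ≤ z.re ∧ z.re ≤ x + w ∧ y ≤ z.im ∧ z.im ≤ y + h}) (z : ℂ)
    (hz : z ∈ interior S) : x < z.re ∧ z.re < x + w ∧ y < z.im ∧ z.im < y + h := by
  refine ⟨?_, ?_, ?_, ?_⟩
  · have : z ∈ interior {z : ℂ | x ≤ z.re} :=
      interior_mono (fun t ht => (hS ht).1) hz
    rwa [Complex.interior_setOfPred_le_re] at this
  · have : z ∈ interior {z : ℂ | z.re ≤ x + w} :=
      interior_mono (fun t ht => (hS ht).2.1) hz
    rwa [Complex.interior_setOfPred_re_le] at this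
  · have : z ∈ interior {z : ℂ | y ≤ z.im} :=
      interior_mono (fun t ht => (hS ht).2.2.1) hz
    rwa [Complex.interior_setOfPred_le_im] at this
  · have : z ∈ interior {z : ℂ | z.im ≤ y + h} :=
      interior_mono (fun t ht => (hS ht).2.2.2) hz
    rwa [Complex.interior_setOfPred_im_le] at this

theorem placed_box (a b x y : ℝ) :
    ∃ u c : ℂ, ‖u‖ = 1 ∧ placed a b u c ⊆
      {z | x ≤ z.re ∧ z.re ≤ x + max a b ∧ y ≤ z.im ∧ z.im ≤ y + min a b} := by
  rcases le_total b a with hab | hab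
  · refine ⟨1, ⟨x, y⟩, by simp, ?_⟩
    rintro _ ⟨z, ⟨h1, h2, h3, h4⟩, rfl⟩
    rw [max_eq_left hab, min_eq_right hab]
    simp only [one_mul, Set.mem_ofPred_eq, Complex.add_re, Complex.add_im]
    exact ⟨by linarith, by linarith, by linarith, by linarith⟩
  · refine ⟨Complex.I, ⟨x + b, y⟩, by simp, ?_⟩
    rintro _ ⟨z, ⟨h1, h2, h3, h4⟩, rfl⟩
    rw [max_eq_right hab, min_eq_left hab]
    simp only [Set.mem_ofPred_eq, Complex.add_re, Complex.add_im, Complex.mul_re,
      Complex.mul_im, Complex.I_re, Complex.I_im]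
    exact ⟨by linarith, by linarith, by linarith, by linarith⟩

/-- Every family of rectangles with sides at most `1` and total area `1` packs into a
square of area `2` (side `√2`). -/
theorem result {ι : Type*} (a b : ι → ℝ) (ha : ∀ i, 0 < a i ∧ a i ≤ 1)
    (hb : ∀ i, 0 < b i ∧ b i ≤ 1) (harea : HasSum (fun i => a i * b i) 1) :
    Packs a b (rect (Real.sqrt 2) (Real.sqrt 2)) := by
  classical
  have hq : (1:ℝ) ≤ Real.sqrt 2 := Real.one_le_sqrt.mpr (by norm_num)
  have hqq : Real.sqrt 2 * Real.sqrt 2 = 2 := Real.mul_self_sqrt (by norm_num)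
  have hpos : ∀ i, 0 < a i * b i := fun i => mul_pos (ha i).1 (hb i).1
  have hfin : ∀ s : Finset ι, BoxPack s (fun i => max (a i) (b i)) (fun i => min (a i) (b i))
      0 0 (Real.sqrt 2) (Real.sqrt 2) := by
    intro s
    refine finite_pack s _ _ _ (fun i _ => (max_le (ha i).2 (hb i).2).trans hq)
      (fun i _ => ⟨lt_min (ha i).1 (hb i).1, min_le_max⟩) ?_
    have h1 : ∑ i ∈ s, max (a i) (b i) * min (a i) (b i) = ∑ i ∈ s, a i * b i :=
      Finset.sum_congr rfl (fun i _ => max_mul_min (a i) (b i))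
    rw [h1, hqq]
    have h2 : ∑ i ∈ s, a i * b i ≤ 1 := sum_le_hasSum s (fun i _ => (hpos i).le) harea
    linarith
  obtain ⟨p, r, h1, h2⟩ := compact_pack _ _ _ (by linarith)
    (fun i => (le_max_left (a i) (b i)).trans' (ha i).1.le)
    (fun i => (lt_min (ha i).1 (hb i).1).le) hfin
  choose u c hu hbox using fun i => placed_box (a i) (b i) (p i) (r i)
  refine ⟨u, c, hu, fun i z hz => ?_, fun i j hij => ?_⟩
  · have h3 := hbox i hz
    have h4 := h1 i
    simp only [Set.mem_ofPred_eq] at h3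
    exact ⟨by linarith, by linarith, by linarith, by linarith⟩
  · rw [Set.disjoint_left]
    intro z hzi hzj
    have h3 := interior_box _ _ _ _ _ (hbox i) z hzi
    have h4 := interior_box _ _ _ _ _ (hbox j) z hzj
    rcases h2 i j hij with h | h | h | h <;> linarith

end Pool.Agent.Results.MP_93723f_co.MoserPacking
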